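import Pool.Agent.H610R2.CN.Fam

/-!
MP_f126a2_nt (converse of Tunnell's criterion, even squarefree n): in both classes 2, 6 mod 8 every
interval `[X, X + C X^(5/6)]` contains a squarefree congruent number.

Proof: `(r - 1) r (r + 1)` is congruent; an elementary sieve finds `r ≡ 6` (resp. `2`) mod `8` in
every interval of length `C sqrt R` with no square dividing `r - 1`, `r`, `r + 1`. (helper610)
-/

namespace Pool.Agent.Results.MP_f126a2_nt.ShortIntervals

/-- There is a constant `C` such that for every real `X ≥ 1` and each of the residue classes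
`j = 2, 6` mod `8` some squarefree congruent number `n ≡ j` mod `8` lies in
`[X, X + C X^(5/6)]`. -/
theorem result : ∃ C : ℝ, 0 < C ∧ ∀ X : ℝ, 1 ≤ X → ∀ j : ℕ, j = 2 ∨ j = 6 →
    ∃ n : ℕ, X ≤ n ∧ (n : ℝ) ≤ X + C * X ^ (5 / 6 : ℝ) ∧ Squarefree n ∧ n % 8 = j ∧
      ∃ a b c : ℚ, 0 < a ∧ 0 < b ∧ 0 < c ∧ a ^ 2 + b ^ 2 = c ^ 2 ∧ (n : ℚ) = a * b / 2 :=
  H610CN.even_classes

end Pool.Agent.Results.MP_f126a2_nt.ShortIntervals
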